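import Pool.Agent.MVD.StmtsLoc

/-!
# Row SHA of squad MVD (problem MP_23468a_al)

The shape of the words which are equivalent to a word with blocks and separators.
-/

namespace Pool.Agent.MVD.H64

open Pool.Agent.MVD Pool.Agent.Helper14_MV Pool.Agent.Helper2_MV

theorem sq_ia {β : FIC} (h : SQ β) : IA β := by
  have h1 : RR β [0, 0, 2] [2, 0, 0] := h
  have h2 := h1.sub (fun i => if i = 0 then [3] else [0])
  have h3 : RR β [3, 3, 0] [0, 3, 3] := by simpa using h2
  exact (RR.refl (β := β) [0, 2]).append h3.symm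

theorem mem_Bw {R : List ℕ} {B : ℕ → List ℕ} {c : ℕ} (h : c ∈ Bw R B) :
    ∃ r ∈ R, c ∈ B r ∨ c = 3 * r + 2 := by
  unfold Bw at h
  rw [List.mem_flatMap] at h
  obtain ⟨r, hr, hc⟩ := h
  rw [List.mem_append, List.mem_singleton] at hc
  exact ⟨r, hr, hc⟩

theorem Bw_mem {R : List ℕ} {B : ℕ → List ℕ} {c r : ℕ} (hr : r ∈ R) (h : c ∈ B r) :
    c ∈ Bw R B := by
  unfold Bw
  rw [List.mem_flatMap]
  exact ⟨r, hr, List.mem_append_left _ h⟩

theorem sha (dec : DecStmt) (kp2 : Kp2Stmt) (kpl : KplStmt) : ShaStmt := by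
  intro β i2 i3 na R B w' hR hB h
  have nsq : ¬ SQ β := fun hs => na (sq_ia hs)
  obtain ⟨B', e, hB', he, hw⟩ := dec β i3 R B w' hR hB h
  have hB'' : ∀ r ∈ R, SFr (B' r) := fun r _ => hB' r
  have h' : RR β (Bw R B) (Bw R B' ++ e) := hw ▸ h
  refine ⟨B', e, hB', he, hw, ?_, ?_, ?_⟩
  · intro c hc
    by_cases hc2 : c % 3 = 2
    · exact ⟨fun r _ hm => hB' r c hm hc2, fun hm => he c hm hc2⟩
    · have hn : c ∉ Bw R B := by
        intro hm
        obtain ⟨r, hr, h1 | h1⟩ := mem_Bw hm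
        · exact hc r hr h1
        · omega
      have hn' := RR.content i3 h' hn
      refine ⟨fun r hr hm => hn' (List.mem_append_left _ (Bw_mem hr hm)), fun hm => hn' ?_⟩
      exact List.mem_append_right _ hm
  · intro c r s hc hr hs hrs hq
    exact kp2 β i2 i3 R B B' e hR hB hB'' he h' c r s hc hr hs hrs hq
  · intro c r hc hr hq
    rcases kpl β i2 i3 R B B' e hR hB hB'' he h' c r hc hr hq with ⟨⟨s, hs, h1, h2⟩, h3⟩ | h1
    · rcases h2 with h2 | h2
      · subst h2
        exact ⟨h1, h3⟩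
      · exact absurd h2 nsq
    · exact absurd h1.2.2 nsq

end Pool.Agent.MVD.H64
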